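import Mathlib

/-!
A criterion for torsion-free tensor powers over a subring `R` of a domain `S` containing `t S`.
-/

set_option autoImplicit false
set_option maxHeartbeats 400000

open PiTensorProduct

namespace Pool.Agent.H535Z.Tor

variable {R S G : Type} [CommRing R] [CommRing S] [Algebra R S] [Fintype G] [DecidableEq G]

/-- The map whose image is the module. -/
def LL (R : Type) [CommRing R] [Algebra R S] (Q : Matrix G G S) (g0 : G) :
    (G → R) →ₗ[R] (G → S) where
  toFun x σ := if σ = g0 then 0 else ∑ a, algebraMap R S (x a) * Q a σ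
  map_add' x y := by
    funext σ
    by_cases h : σ = g0 <;> simp [h, add_mul, Finset.sum_add_distrib]
  map_smul' c x := by
    funext σ
    by_cases h : σ = g0 <;> simp [h, Finset.mul_sum, Algebra.smul_def, mul_assoc]

lemma LL_apply (Q : Matrix G G S) (g0 : G) (x : G → R) (σ : G) :
    LL R Q g0 x σ = if σ = g0 then 0 else ∑ a, algebraMap R S (x a) * Q a σ := rfl

/-- The module. -/
abbrev MM (R : Type) [CommRing R] [Algebra R S] (Q : Matrix G G S) (g0 : G) : Type :=
  LinearMap.range (LL R Q g0)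

/-- The generators. -/
def vv (R : Type) [CommRing R] [Algebra R S] (Q : Matrix G G S) (g0 : G) (a : G) : MM R Q g0 :=
  (LL R Q g0).rangeRestrict (Pi.single a 1)

lemma vv_apply (Q : Matrix G G S) (g0 a σ : G) (h : σ ≠ g0) : (vv R Q g0 a).1 σ = Q a σ := by
  change LL R Q g0 (Pi.single a 1) σ = _
  rw [LL_apply, if_neg h, Finset.sum_eq_single a]
  · simp
  · intro b _ hb
    simp [hb]
  · simp

lemma sum_vv (Q : Matrix G G S) (g0 : G) (x : G → R) :
    ∑ a, x a • vv R Q g0 a = (LL R Q g0).rangeRestrict x := by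
  conv_rhs => rw [← Finset.univ_sum_single x]
  rw [map_sum]
  refine Finset.sum_congr rfl fun a _ => ?_
  rw [vv, ← map_smul]
  congr 1
  funext b
  by_cases h : b = a
  · subst h; simp
  · simp [h]

lemma tensor_gen (Q : Matrix G G S) (g0 : G) (e : ℕ) (x : TensorPower R e (MM R Q g0)) :
    ∃ r : (Fin e → G) → R, x = ∑ a, r a • tprod R (fun i => vv R Q g0 (a i)) := by
  induction x using PiTensorProduct.induction_on with
  | smul_tprod c m =>
    have : ∀ i, ∃ x : G → R, m i = ∑ a, x a • vv R Q g0 a := by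
      intro i
      obtain ⟨x, hx⟩ := (LL R Q g0).surjective_rangeRestrict (m i)
      exact ⟨x, by rw [sum_vv, hx]⟩
    choose x hx using this
    refine ⟨fun a => c * ∏ i, x i (a i), ?_⟩
    have : m = fun i => ∑ a, x i a • vv R Q g0 a := funext hx
    rw [this, MultilinearMap.map_sum, Finset.smul_sum]
    refine Finset.sum_congr rfl fun a _ => ?_
    rw [MultilinearMap.map_smul_univ, smul_smul]
  | add x y hx hy =>
    obtain ⟨r, rfl⟩ := hx
    obtain ⟨s, rfl⟩ := hy
    exact ⟨r + s, by simp [add_smul, Finset.sum_add_distrib]⟩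

/-- coordinate functionals on the tensor power. -/
noncomputable def Phi (Q : Matrix G G S) (g0 : G) (e : ℕ) (b : Fin e → G) :
    TensorPower R e (MM R Q g0) →ₗ[R] S :=
  PiTensorProduct.lift ((MultilinearMap.mkPiAlgebra R (Fin e) S).compLinearMap
    fun i => (LinearMap.proj (b i)) ∘ₗ (LinearMap.range (LL R Q g0)).subtype)

lemma Phi_tprod (Q : Matrix G G S) (g0 : G) (e : ℕ) (b : Fin e → G) (m : Fin e → MM R Q g0) :
    Phi Q g0 e b (tprod R m) = ∏ i, (m i).1 (b i) := by
  simp [Phi]

lemma sum_update {ι A : Type} [Fintype ι] [DecidableEq ι] [AddCommMonoid A] (g0 : G) (i0 : ι)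
    (F : (ι → G) → A) :
    ∑ a, F a = ∑ a ∈ Finset.univ.filter (fun a : ι → G => a i0 = g0),
      ∑ c, F (Function.update a i0 c) := by
  rw [← Finset.sum_product']
  refine Finset.sum_nbij' (fun a => (Function.update a i0 g0, a i0))
    (fun p => Function.update p.1 i0 p.2) ?_ ?_ ?_ ?_ ?_
  · intro a _
    simp
  · intro p _
    simp
  · intro a _
    simp
  · rintro ⟨a, c⟩ hp
    have : a i0 = g0 := by simpa using hp
    simp [← this]
  · intro a _
    simp

lemma inv_sum {ι : Type} [Fintype ι] [DecidableEq ι] {Q P : Matrix G G S} (h : Q * P = 1)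
    (s : (ι → G) → S) (a : ι → G) :
    ∑ b : ι → G, (∑ a' : ι → G, s a' * ∏ i, Q (a' i) (b i)) * ∏ i, P (b i) (a i) = s a := by
  simp only [Finset.sum_mul]
  rw [Finset.sum_comm]
  have key : ∀ a' : ι → G, ∑ b : ι → G, (s a' * ∏ i, Q (a' i) (b i)) * ∏ i, P (b i) (a i) =
      s a' * if a' = a then 1 else 0 := by
    intro a'
    simp only [mul_assoc, ← Finset.prod_mul_distrib]
    rw [← Finset.mul_sum]
    congr 1
    rw [← Fintype.piFinset_univ, ← Finset.prod_univ_sum (fun _ => Finset.univ)
      (fun i σ => Q (a' i) σ * P σ (a i))]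
    simp only [← Matrix.mul_apply, h, Matrix.one_apply]
    rw [Finset.prod_boole]
    simp [funext_iff]
  simp [key]

section Main

variable [IsDomain S] (hinj : Function.Injective (algebraMap R S)) {t : S} (ht : t ≠ 0)
  (lf : S → R) (hlf : ∀ s, algebraMap R S (lf s) = t * s)
  {Q P : Matrix G G S} (hQP : Q * P = 1) (hPQ : P * Q = 1) (g0 : G)

include hlf hPQ in
omit [IsDomain S] in
lemma rel_zero (s : S) : (LL R Q g0).rangeRestrict (fun c => lf (s * P g0 c)) = 0 := by
  apply Subtype.ext
  funext σ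
  change LL R Q g0 _ σ = 0
  rw [LL_apply]
  split_ifs with h
  · rfl
  · simp only [hlf, mul_assoc, ← Finset.mul_sum]
    rw [← Matrix.mul_apply, hPQ, Matrix.one_apply_ne (Ne.symm h)]
    simp

include hlf hPQ in
omit [IsDomain S] in
lemma W_zero (e : ℕ) (s : S) (b : Fin e → G) (i0 : Fin e) (hb : b i0 = g0) :
    ∑ a : Fin e → G, lf (s * ∏ i, P (b i) (a i)) • tprod R (fun i => vv R Q g0 (a i)) = 0 := by
  rw [sum_update g0 i0]
  refine Finset.sum_eq_zero fun a _ => ?_
  have e1 : ∀ c, ∏ i, P (b i) (Function.update a i0 c i) =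
      (∏ i ∈ Finset.univ.erase i0, P (b i) (a i)) * P g0 c := by
    intro c
    rw [← Finset.prod_erase_mul _ _ (Finset.mem_univ i0), Function.update_self, hb]
    congr 1
    refine Finset.prod_congr rfl fun i hi => ?_
    rw [Function.update_of_ne (Finset.ne_of_mem_erase hi)]
  have e2 : ∀ c, (fun i => vv R Q g0 (Function.update a i0 c i)) =
      Function.update (fun i => vv R Q g0 (a i)) i0 (vv R Q g0 c) := by
    intro c
    funext i
    by_cases h : i = i0
    · subst h; simp
    · simp [h]
  simp only [e1, e2, ← mul_assoc, ← MultilinearMap.map_update_smul]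
  rw [← MultilinearMap.map_update_sum, sum_vv, rel_zero lf hlf hPQ, MultilinearMap.map_update_zero]

include hinj ht hlf hQP hPQ in
theorem torsion_free (e : ℕ)
    (H : ∀ r : (Fin e → G) → R, (∀ b : Fin e → G, (∀ i, b i ≠ g0) →
      ∑ a, algebraMap R S (r a) * ∏ i, Q (a i) (b i) = 0) → ∀ a, t ∣ algebraMap R S (r a)) :
    Submodule.torsion R (TensorPower R e (MM R Q g0)) = ⊥ := by
  rw [eq_bot_iff]
  rintro x ⟨⟨c, hc⟩, hx⟩
  have hx' : c • x = 0 := hx
  have hc0 : algebraMap R S c ≠ 0 := by
    intro h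
    have h0 : c = 0 := hinj (by rw [h, map_zero])
    have h1 : (1 : R) = 0 := (mem_nonZeroDivisors_iff.1 hc).1 1 (by rw [h0, zero_mul])
    have : (1 : S) = 0 := by rw [← map_one (algebraMap R S), h1, map_zero]
    exact one_ne_zero this
  obtain ⟨r, rfl⟩ := tensor_gen Q g0 e x
  have h1 : ∀ b : Fin e → G, (∀ i, b i ≠ g0) →
      ∑ a, algebraMap R S (r a) * ∏ i, Q (a i) (b i) = 0 := by
    intro b hb
    have := congrArg (Phi Q g0 e b) hx'
    rw [map_smul, map_zero, Algebra.smul_def, mul_eq_zero, map_sum] at this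
    rw [← this.resolve_left hc0]
    refine Finset.sum_congr rfl fun a _ => ?_
    rw [map_smul, Phi_tprod, Algebra.smul_def]
    congr 1
    exact Finset.prod_congr rfl fun i _ => (vv_apply Q g0 _ _ (hb i)).symm
  choose s' hs' using H r h1
  have h2 : ∀ a, r a = ∑ b : Fin e → G,
      lf ((∑ a' : Fin e → G, s' a' * ∏ i, Q (a' i) (b i)) * ∏ i, P (b i) (a i)) := by
    intro a
    apply hinj
    rw [map_sum]
    simp only [hlf]
    rw [← Finset.mul_sum, inv_sum hQP, hs']
  rw [Submodule.mem_bot]
  calc ∑ a, r a • tprod R (fun i => vv R Q g0 (a i))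
      = ∑ a : Fin e → G, ∑ b : Fin e → G,
        lf ((∑ a' : Fin e → G, s' a' * ∏ i, Q (a' i) (b i)) * ∏ i, P (b i) (a i)) •
          tprod R (fun i => vv R Q g0 (a i)) := by
        refine Finset.sum_congr rfl fun a _ => ?_
        rw [← Finset.sum_smul, ← h2]
    _ = 0 := by
        rw [Finset.sum_comm]
        refine Finset.sum_eq_zero fun b _ => ?_
        by_cases hb : ∃ i, b i = g0
        · obtain ⟨i0, hi⟩ := hb
          exact W_zero lf hlf hPQ g0 e _ b i0 hi
        · push Not at hb
          have h3 := h1 b hb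
          simp only [hs', mul_assoc, ← Finset.mul_sum] at h3
          have h4 := (mul_eq_zero.1 h3).resolve_left ht
          have h5 : lf 0 = 0 := hinj (by rw [hlf, mul_zero, map_zero])
          simp [h4, h5]

include ht hlf hPQ in
theorem not_free (hu : ¬ IsUnit t)
    (H : ∀ r : G → R, (∀ b : G, b ≠ g0 →
      ∑ a, algebraMap R S (r a) * Q a b = 0) → ∀ a, t ∣ algebraMap R S (r a)) :
    ¬ Module.Free R (MM R Q g0) := by
  intro hfree
  obtain ⟨s, hs⟩ := Module.projective_lifting_property (LL R Q g0).rangeRestrict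
    (LinearMap.id : MM R Q g0 →ₗ[R] MM R Q g0) (LL R Q g0).surjective_rangeRestrict
  let ρ : (G → R) →ₗ[R] (G → R) := LinearMap.id - s ∘ₗ (LL R Q g0).rangeRestrict
  let lam : (G → R) →ₗ[R] S :=
    { toFun := fun x => ∑ a, algebraMap R S (x a) * Q a g0
      map_add' := fun x y => by simp [add_mul, Finset.sum_add_distrib]
      map_smul' := fun c x => by simp [Finset.mul_sum, Algebra.smul_def, mul_assoc] }
  have h1 : ∀ x, t ∣ lam (ρ x) := by
    intro x
    have h2 : (LL R Q g0).rangeRestrict (ρ x) = 0 := by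
      have := LinearMap.congr_fun hs ((LL R Q g0).rangeRestrict x)
      simp only [LinearMap.comp_apply, LinearMap.id_apply] at this
      simp [ρ, this]
    have h3 := H (ρ x) fun b hb => by
      have := congrFun (congrArg Subtype.val h2) b
      change LL R Q g0 _ b = 0 at this
      rwa [LL_apply, if_neg hb] at this
    exact Finset.dvd_sum fun a _ => (h3 a).mul_right _
  let z : G → R := fun c => lf (1 * P g0 c)
  have hz : ρ z = z := by
    simp only [ρ, LinearMap.sub_apply, LinearMap.id_apply, LinearMap.comp_apply, z]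
    rw [rel_zero lf hlf hPQ, map_zero, sub_zero]
  have hz2 : lam z = t := by
    change ∑ a, algebraMap R S (lf (1 * P g0 a)) * Q a g0 = t
    simp only [hlf, one_mul, mul_assoc, ← Finset.mul_sum]
    rw [← Matrix.mul_apply, hPQ]
    simp
  have hz3 : t * t ∣ lam (ρ z) := by
    have : z = ∑ a, z a • (Pi.single a 1 : G → R) := by
      funext b
      simp [Pi.single_apply]
    rw [this, map_sum, map_sum]
    refine Finset.dvd_sum fun a _ => ?_
    rw [map_smul, map_smul, Algebra.smul_def]
    exact mul_dvd_mul ⟨_, hlf _⟩ (h1 _)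
  rw [hz, hz2] at hz3
  obtain ⟨w, hw⟩ := hz3
  apply hu
  refine IsUnit.of_mul_eq_one w (mul_left_cancel₀ ht ?_)
  rw [← mul_assoc, ← hw, mul_one]

include hinj in
theorem torsion_MM : Submodule.torsion R (MM R Q g0) = ⊥ := by
  rw [eq_bot_iff]
  rintro x ⟨⟨c, hc⟩, hx⟩
  have hx' : c • x = 0 := hx
  have hc0 : algebraMap R S c ≠ 0 := by
    intro h
    have h0 : c = 0 := hinj (by rw [h, map_zero])
    have h1 : (1 : R) = 0 := (mem_nonZeroDivisors_iff.1 hc).1 1 (by rw [h0, zero_mul])
    have : (1 : S) = 0 := by rw [← map_one (algebraMap R S), h1, map_zero]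
    exact one_ne_zero this
  rw [Submodule.mem_bot]
  apply Subtype.ext
  funext σ
  have := congrFun (congrArg Subtype.val hx') σ
  simp only [Submodule.coe_smul, Pi.smul_apply, Algebra.smul_def, ZeroMemClass.coe_zero,
    Pi.zero_apply] at this
  exact (mul_eq_zero.1 this).resolve_left hc0

end Main

end Pool.Agent.H535Z.Tor
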