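import Mathlib

/-!
Alternating tensors give torsion in tensor powers; one-dimensional local domains.
-/

set_option autoImplicit false
set_option maxHeartbeats 400000

open PiTensorProduct TensorProduct IsLocalRing

namespace Pool.Agent.H535Z.Tor

variable {R : Type} [CommRing R] [IsDomain R] [IsLocalRing R]

/-- A relation among `s ≤ e` elements that are independent modulo the maximal ideal gives torsion. -/
lemma torsion_of_rel {M : Type} [AddCommGroup M] [Module R M] {κ : Type} [Fintype κ]
    [DecidableEq κ]
    (w : κ → M) (φ : κ → M →ₗ[R] ResidueField R) (hφ : ∀ i j, φ i (w j) = if i = j then 1 else 0)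
    (c : κ → R) (j0 : κ) (hc : c j0 ≠ 0) (hrel : ∑ j, c j • w j = 0) (e : ℕ)
    (he : Fintype.card κ ≤ e) : Submodule.torsion R (TensorPower R e M) ≠ ⊥ := by
  classical
  obtain ⟨f⟩ : Nonempty (κ ↪ Fin e) := Function.Embedding.nonempty_of_card_le (by simpa using he)
  let P : Fin e → Prop := fun i => i ∈ Set.range f
  let g : κ ≃ {i // P i} := Equiv.ofInjective f f.injective
  let w' : {i // P i} → M := w ∘ g.symm
  let A : M [⋀^{i // P i}]→ₗ[R] TensorPower R e M :=
    MultilinearMap.alternatization ((PiTensorProduct.tprod R (s := fun _ : Fin e => M)).domDomRestrict P fun _ => w j0)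
  let ψ : Fin e → M →ₗ[R] ResidueField R := fun i => if h : P i then φ (g.symm ⟨i, h⟩) else φ j0
  let Ψ : TensorPower R e M →ₗ[R] ResidueField R :=
    PiTensorProduct.lift ((MultilinearMap.mkPiAlgebra R (Fin e) (ResidueField R)).compLinearMap ψ)
  have h1 : Ψ (A w') = 1 := by
    simp only [A, MultilinearMap.alternatization_apply, map_sum]
    rw [Finset.sum_eq_single 1]
    · simp only [Equiv.Perm.sign_one, one_smul, MultilinearMap.domDomCongr_apply,
        MultilinearMap.domDomRestrict_apply, Ψ, PiTensorProduct.lift.tprod,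
        MultilinearMap.compLinearMap_apply, MultilinearMap.mkPiAlgebra_apply]
      refine Finset.prod_eq_one fun i _ => ?_
      by_cases h : P i <;> simp [ψ, h, w', hφ]
    · intro σ _ hσ
      obtain ⟨i, hi⟩ : ∃ i, σ i ≠ i := by
        by_contra hcon
        push Not at hcon
        exact hσ (Equiv.ext hcon)
      rw [Units.smul_def, map_zsmul]
      simp only [MultilinearMap.domDomCongr_apply,
        MultilinearMap.domDomRestrict_apply, Ψ, PiTensorProduct.lift.tprod,
        MultilinearMap.compLinearMap_apply, MultilinearMap.mkPiAlgebra_apply]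
      rw [Finset.prod_eq_zero (Finset.mem_univ i.1), smul_zero]
      have : g.symm i ≠ g.symm (σ i) := fun h => hi (g.symm.injective h).symm
      simp [ψ, i.2, w', hφ, this]
    · simp
  have h2 : c j0 • A w' = 0 := by
    have e1 : c j0 • w j0 = -∑ j ∈ Finset.univ.erase j0, c j • w j := by
      rw [eq_neg_iff_add_eq_zero, Finset.add_sum_erase _ (fun j => c j • w j) (Finset.mem_univ j0),
        hrel]
    have e2 : w' = Function.update w' (g j0) (w j0) := by
      rw [show w j0 = w' (g j0) by simp [w'], Function.update_eq_self]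
    rw [e2, ← AlternatingMap.map_update_smul, e1, AlternatingMap.map_update_neg,
      AlternatingMap.map_update_sum, neg_eq_zero]
    refine Finset.sum_eq_zero fun j hj => ?_
    rw [AlternatingMap.map_update_smul, show w j = w' (g j) by simp [w'],
      AlternatingMap.map_update_self, smul_zero]
    exact fun h => Finset.ne_of_mem_erase hj (g.injective h).symm
  intro hbot
  have h3 : A w' ∈ Submodule.torsion R (TensorPower R e M) :=
    ⟨⟨c j0, mem_nonZeroDivisors_of_ne_zero hc⟩, h2⟩
  rw [hbot, Submodule.mem_bot] at h3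
  rw [h3, map_zero] at h1
  exact zero_ne_one h1

omit [IsDomain R] in
/-- minimal generators chosen among a generating family. -/
lemma exists_min_gens {N : Type} [AddCommGroup N] [Module R N] [Module.Finite R N] {ι : Type}
    [Finite ι] (v : ι → N) (hv : Submodule.span R (Set.range v) = ⊤) :
    ∃ (κ : Type) (_ : Fintype κ) (a : κ → ι) (b : Module.Basis κ (ResidueField R)
      (ResidueField R ⊗[R] N)), Function.Injective a ∧ (∀ i, (1 : ResidueField R) ⊗ₜ v (a i) = b i) ∧
      Submodule.span R (Set.range (v ∘ a)) = ⊤ := by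
  obtain ⟨κ, a, ha, hsp, hli⟩ := exists_linearIndependent' (ResidueField R)
    (TensorProduct.mk R (ResidueField R) N 1 ∘ v)
  have : Finite κ := Finite.of_injective a ha
  have htop : Submodule.span (ResidueField R)
      (Set.range (TensorProduct.mk R (ResidueField R) N 1 ∘ v)) = ⊤ := by
    rw [← Submodule.restrictScalars_eq_top_iff R, Submodule.restrictScalars_span R (ResidueField R)
      Ideal.Quotient.mk_surjective, Set.range_comp, ← Submodule.map_span, hv,
      map_tensorProduct_mk_eq_top]
  let b := Module.Basis.mk hli (by rw [hsp, htop])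
  have hb : ∀ i, (1 : ResidueField R) ⊗ₜ v (a i) = b i := fun i => by simp [b]
  exact ⟨κ, Fintype.ofFinite κ, a, b, ha, hb, span_eq_top_of_tmul_eq_basis (v ∘ a) b hb⟩

open Pointwise in
omit [IsLocalRing R] in
lemma length_ideal [IsNoetherianRing R] [Ring.KrullDimLE 1 R] (I : Ideal R) (hI : I ≠ ⊥) (x : R)
    (hx : x ≠ 0) :
    Module.length R (I ⧸ Submodule.comap I.subtype (x • I)) =
      Module.length R (R ⧸ Ideal.span {x}) := by
  have h1 := Module.length_eq_add_of_exact (Ideal.mulQuot x I) (Ideal.quotOfMul x I)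
    (Ideal.mulQuot_injective I (mem_nonZeroDivisors_of_ne_zero hx))
    (Ideal.quotOfMul_surjective I) (Ideal.exact_mulQuot_quotOfMul I)
  have hle : x • I ≤ I := Submodule.smul_le_self_of_tower x I
  have h2 := Module.length_eq_add_of_exact
    (Submodule.mapQ (Submodule.comap I.subtype (x • I)) (x • I) I.subtype le_rfl)
    (Submodule.factor hle) (by
      rw [← LinearMap.ker_eq_bot, Submodule.mapQ, Submodule.ker_liftQ_eq_bot]
      rw [LinearMap.ker_comp, Submodule.ker_mkQ])
    (Submodule.factor_surjective hle) (by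
      intro y
      obtain ⟨y, rfl⟩ := Submodule.mkQ_surjective _ y
      constructor
      · intro h
        have : y ∈ I := (Submodule.Quotient.mk_eq_zero I).1 h
        exact ⟨Submodule.Quotient.mk ⟨y, this⟩, rfl⟩
      · rintro ⟨z, hz⟩
        obtain ⟨z, rfl⟩ := Submodule.mkQ_surjective _ z
        rw [← hz]
        exact (Submodule.Quotient.mk_eq_zero I).2 z.2)
  obtain ⟨a, ha, ha0⟩ := Submodule.exists_mem_ne_zero_of_ne_bot hI
  have h3 : Module.length R (R ⧸ I) ≠ ⊤ := by
    have h4 := Module.length_ne_top_iff.2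
      (isFiniteLength_quotient_span_singleton R (mem_nonZeroDivisors_of_ne_zero ha0))
    have hle' : Ideal.span {a} ≤ I := (Ideal.span_singleton_le_iff_mem _).2 ha
    exact ne_top_of_le_ne_top h4 (Module.length_le_of_surjective (Submodule.factor hle')
      (Submodule.factor_surjective hle'))
  rw [h1, add_comm] at h2
  exact (WithTop.add_right_cancel h3 h2).symm

open Pointwise in
lemma card_le_length [IsNoetherianRing R] [Ring.KrullDimLE 1 R] (I : Ideal R) (hI : I ≠ ⊥) (x : R)
    (hx : x ≠ 0) (hm : x ∈ maximalIdeal R) :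
    (Module.finrank (ResidueField R) (ResidueField R ⊗[R] I) : ℕ∞) ≤
      Module.length R (R ⧸ Ideal.span {x}) := by
  rw [← length_ideal I hI x hx, ← Module.length_eq_finrank,
    ← Module.length_eq_of_surjective (S := R) (R := ResidueField R) Ideal.Quotient.mk_surjective]
  refine Module.length_le_of_surjective ((Submodule.comap I.subtype (x • I)).liftQ
    (TensorProduct.mk R (ResidueField R) I 1) ?_) ?_
  · intro y hy
    obtain ⟨z, hz, hzy⟩ := (Submodule.mem_smul_pointwise_iff_exists _ _ _).1 hy
    have : y = x • (⟨z, hz⟩ : I) := Subtype.ext hzy.symm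
    rw [LinearMap.mem_ker, this, map_smul, TensorProduct.mk_apply, TensorProduct.smul_tmul',
      Algebra.smul_def, mul_one]
    rw [show algebraMap R (ResidueField R) x = 0 from (residue_eq_zero_iff x).2 hm, zero_tmul]
  · intro y
    obtain ⟨z, rfl⟩ := TensorProduct.mk_surjective R I (ResidueField R)
      Ideal.Quotient.mk_surjective y
    exact ⟨Submodule.Quotient.mk z, rfl⟩

theorem dim_one [IsNoetherianRing R] [Ring.KrullDimLE 1 R] (x : R) (hx : x ≠ 0)
    (hm : x ∈ maximalIdeal R) (e : ℕ) (he : Module.length R (R ⧸ Ideal.span {x}) ≤ e)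
    (M : Type) [AddCommGroup M] [Module R M] [Module.Finite R M] (hM : ¬ Module.Free R M) :
    Submodule.torsion R (TensorPower R e M) ≠ ⊥ := by
  classical
  obtain ⟨n, v0, hv0⟩ := Module.Finite.exists_fin (R := R) (M := M)
  obtain ⟨ι, _, a0, b, -, hb, hsp⟩ := exists_min_gens v0 hv0
  set v : ι → M := v0 ∘ a0 with hv
  have hli : ¬ LinearIndependent R v := fun h =>
    hM (Module.Free.of_basis (Module.Basis.mk h hsp.ge))
  obtain ⟨z, hz, i0, hi0⟩ := Fintype.not_linearIndependent_iff.1 hli
  let I : Ideal R := Ideal.span (Set.range z)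
  let z' : ι → I := fun i => ⟨z i, Ideal.subset_span ⟨i, rfl⟩⟩
  have hI : I ≠ ⊥ := fun h => hi0 (by
    have : z i0 ∈ I := (z' i0).2
    rwa [h] at this)
  have hz' : Submodule.span R (Set.range z') = ⊤ := by
    apply Submodule.map_injective_of_injective I.subtype_injective
    rw [Submodule.map_span, ← Set.range_comp, Submodule.map_top, Submodule.range_subtype]
    rfl
  obtain ⟨κ, _, a, b', ha, -, hsp'⟩ := exists_min_gens z' hz'
  have hcard : Fintype.card κ ≤ e := by
    have := (card_le_length I hI x hx hm).trans he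
    rw [Module.finrank_eq_card_basis b'] at this
    exact_mod_cast this
  have hco : ∀ i, ∃ β : κ → R, (∑ j, β j * z (a j) = z i) ∧
      ∀ j', i = a j' → ∀ j, β j = if j' = j then 1 else 0 := by
    intro i
    by_cases hi : ∃ j', i = a j'
    · obtain ⟨j', rfl⟩ := hi
      refine ⟨fun j => if j' = j then 1 else 0, by simp, fun j'' h j => ?_⟩
      rw [ha h]
    · have : z' i ∈ Submodule.span R (Set.range (z' ∘ a)) := by rw [hsp']; trivial
      obtain ⟨β, hβ⟩ := (Submodule.mem_span_range_iff_exists_fun R).1 this
      refine ⟨β, ?_, fun j' h => absurd ⟨j', h⟩ hi⟩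
      have := congrArg Subtype.val hβ
      simpa [z'] using this
  choose β hβ1 hβ2 using hco
  obtain ⟨j0, hj0⟩ : ∃ j0, z (a j0) ≠ 0 := by
    by_contra hcon
    push Not at hcon
    apply hi0
    rw [← hβ1 i0]
    simp [hcon]
  refine torsion_of_rel (fun j => ∑ i, β i j • v i)
    (fun j => ((b.coord (a j)).restrictScalars R) ∘ₗ TensorProduct.mk R (ResidueField R) M 1)
    (fun j j' => ?_) (fun j => z (a j)) j0 hj0 ?_ e hcard
  · simp only [LinearMap.comp_apply, map_sum, map_smul, TensorProduct.mk_apply,
      LinearMap.restrictScalars_apply]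
    rw [Finset.sum_eq_single (a j)]
    · rw [hβ2 (a j) j rfl j', show (1 : ResidueField R) ⊗ₜ[R] v (a j) = b (a j) from hb _]
      by_cases h : j = j' <;> simp [h]
    · intro i _ hi
      rw [show (1 : ResidueField R) ⊗ₜ[R] v i = b i from hb _]
      simp [hi]
    · simp
  · rw [← hz]
    simp only [Finset.smul_sum, smul_smul]
    rw [Finset.sum_comm]
    refine Finset.sum_congr rfl fun i _ => ?_
    rw [← Finset.sum_smul, ← hβ1 i]
    simp only [mul_comm]

end Pool.Agent.H535Z.Tor
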