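import Pool.Agent.H535Z.Tor.Abs

/-!
The ring `k + t K[[t]]` for a finite Galois extension `K / k`.
-/

set_option autoImplicit false
set_option maxHeartbeats 400000

open PowerSeries

namespace Pool.Agent.H535Z.Tor

variable (k K : Type) [Field k] [Field K] [Algebra k K]

/-- power series over `K` with constant term in `k`. -/
def RR : Subalgebra k⟦X⟧ K⟦X⟧ where
  carrier := {f | constantCoeff f ∈ (algebraMap k K).fieldRange}
  mul_mem' := fun {a b} ha hb => by
    change constantCoeff (a * b) ∈ (algebraMap k K).fieldRange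
    rw [map_mul]
    exact mul_mem ha hb
  add_mem' := fun {a b} ha hb => by
    change constantCoeff (a + b) ∈ (algebraMap k K).fieldRange
    rw [map_add]
    exact add_mem ha hb
  algebraMap_mem' := fun f => by
    change constantCoeff (map (algebraMap k K) f) ∈ (algebraMap k K).fieldRange
    refine ⟨constantCoeff f, ?_⟩
    rw [← coeff_zero_eq_constantCoeff_apply, ← coeff_zero_eq_constantCoeff_apply, coeff_map]

variable {k K}

lemma mem_RR (f : K⟦X⟧) : f ∈ RR k K ↔ constantCoeff f ∈ (algebraMap k K).fieldRange := Iff.rfl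

/-- multiplication by the variable lands in the subring. -/
noncomputable def lfX (k : Type) [Field k] [Algebra k K] (s : K⟦X⟧) : RR k K :=
  ⟨X * s, by rw [mem_RR]; simp⟩

lemma isUnit_RR (f : RR k K) (h : constantCoeff f.1 ≠ 0) : IsUnit f := by
  have h1 : f.1 * f.1⁻¹ = 1 := PowerSeries.mul_inv_cancel _ h
  have h2 : f.1⁻¹ ∈ RR k K := by
    rw [mem_RR, constantCoeff_inv]
    exact inv_mem f.2
  exact IsUnit.of_mul_eq_one ⟨_, h2⟩ (Subtype.ext h1)

lemma not_isUnit_RR (f : RR k K) (h : constantCoeff f.1 = 0) : ¬ IsUnit f := by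
  intro hu
  have := (hu.map (RR k K).val).map (constantCoeff (R := K))
  rw [show (RR k K).val f = f.1 from rfl, h] at this
  exact not_isUnit_zero this

instance : IsLocalRing (RR k K) :=
  IsLocalRing.of_isUnit_or_isUnit_one_sub_self fun a => by
    by_cases h : constantCoeff a.1 = 0
    · right
      apply isUnit_RR
      simp [h]
    · exact Or.inl (isUnit_RR a h)

lemma finite_PS [FiniteDimensional k K] : Module.Finite k⟦X⟧ K⟦X⟧ := by
  classical
  let b := Module.finBasis k K
  refine ⟨⟨Finset.univ.image fun i => C (b i), ?_⟩⟩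
  rw [eq_top_iff]
  intro f _
  have : f = ∑ i, (PowerSeries.mk fun n => b.repr (coeff n f) i) • C (b i) := by
    ext n
    rw [map_sum]
    conv_lhs => rw [← b.sum_repr (coeff n f)]
    refine Finset.sum_congr rfl fun i _ => ?_
    rw [Algebra.smul_def, Algebra.smul_def, algebraMap_apply'', coeff_mul_C, coeff_map, coeff_mk]
  rw [this]
  exact Submodule.sum_mem _ fun i _ => Submodule.smul_mem _ _ (Submodule.subset_span (by simp))

lemma noeth_RR [FiniteDimensional k K] : IsNoetherianRing (RR k K) := by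
  have := finite_PS (k := k) (K := K)
  have h1 : IsNoetherian k⟦X⟧ (RR k K) :=
    isNoetherian_of_injective (RR k K).val.toLinearMap Subtype.val_injective
  exact isNoetherian_of_tower k⟦X⟧ h1

lemma dim_RR : ringKrullDim (RR k K) = 1 := by
  rw [ringKrullDim_eq_one_iff_of_isLocalRing_isDomain]
  constructor
  · intro h
    have h1 : lfX k (1 : K⟦X⟧) ≠ 0 := by
      intro h0
      have := congrArg Subtype.val h0
      simp [lfX] at this
    obtain ⟨y, hy⟩ := h.mul_inv_cancel h1
    exact not_isUnit_RR (lfX k 1) (by simp [lfX]) (IsUnit.of_mul_eq_one y hy)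
  · intro f hf g hg
    have hf' : f.1 ≠ 0 := fun h => hf (Subtype.ext h)
    have hg' : constantCoeff g.1 = 0 := by
      by_contra h
      exact hg (isUnit_RR g h)
    obtain ⟨g', hg2⟩ := X_dvd_iff.2 hg'
    obtain ⟨u, hu⟩ := isUnit_divided_by_X_pow_order hf'
    have h1 := X_pow_order_mul_divXPowOrder (f := f.1)
    refine ⟨f.1.order.toNat + 1, Ideal.mem_span_singleton'.2
      ⟨lfX k (g' ^ (f.1.order.toNat + 1) * (↑u⁻¹ : K⟦X⟧)), Subtype.ext ?_⟩⟩
    change X * (g' ^ (f.1.order.toNat + 1) * (↑u⁻¹ : K⟦X⟧)) * f.1 = g.1 ^ (f.1.order.toNat + 1)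
    generalize f.1.order.toNat = n at h1 ⊢
    rw [← h1, ← hu, hg2, mul_pow]
    calc X * (g' ^ (n + 1) * (↑u⁻¹ : K⟦X⟧)) * (X ^ n * ↑u)
        = X ^ (n + 1) * g' ^ (n + 1) * ((↑u⁻¹ : K⟦X⟧) * ↑u) := by ring
      _ = _ := by rw [Units.inv_mul, mul_one]

section Gal

variable [FiniteDimensional k K] [IsGalois k K] [DecidableEq (K ≃ₐ[k] K)]

/-- the matrix of conjugates of a basis. -/
noncomputable def Q0 (k K : Type) [Field k] [Field K] [Algebra k K] [FiniteDimensional k K]
    [IsGalois k K] : Matrix (K ≃ₐ[k] K) (K ≃ₐ[k] K) K :=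
  fun a σ => σ (IsGalois.normalBasis k K a)

lemma Q0_unit : IsUnit (Q0 k K) := by
  rw [← Matrix.mulVec_injective_iff_isUnit, ← Matrix.coe_mulVecLin, ← LinearMap.ker_eq_bot,
    LinearMap.ker_eq_bot']
  intro c hc
  have hli := (linearIndependent_algHom_toLinearMap k K K).comp _
    (AlgEquiv.coe_toAlgHom_injective (R := k) (A₁ := K) (A₂ := K))
  funext σ
  refine Fintype.linearIndependent_iff.1 hli c ?_ σ
  refine (IsGalois.normalBasis k K).ext fun a => ?_
  have := congrFun hc a
  simp only [Matrix.mulVecLin_apply, Matrix.mulVec, dotProduct, Q0, Pi.zero_apply] at this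
  simpa [mul_comm] using this

lemma gal_key {ι : Type} [Fintype ι] [DecidableEq ι] (hι : Fintype.card ι < Module.finrank k K)
    (r : (ι → (K ≃ₐ[k] K)) → k)
    (h : ∀ b : ι → (K ≃ₐ[k] K), (∀ i, b i ≠ 1) →
      ∑ a, algebraMap k K (r a) * ∏ i, Q0 k K (a i) (b i) = 0) (a : ι → (K ≃ₐ[k] K)) :
    r a = 0 := by
  have h1 : ∀ b : ι → (K ≃ₐ[k] K), ∑ a, algebraMap k K (r a) * ∏ i, Q0 k K (a i) (b i) = 0 := by
    intro b
    have : ¬ Function.Surjective b := by
      intro hb
      have := Fintype.card_le_of_surjective b hb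
      rw [← IsGalois.card_aut_eq_finrank, Nat.card_eq_fintype_card] at hι
      omega
    obtain ⟨τ, hτ⟩ : ∃ τ, ∀ i, b i ≠ τ := by
      by_contra hc
      push Not at hc
      exact this hc
    have h2 := congrArg τ (h (fun i => τ⁻¹ * b i) fun i hi => hτ i (inv_mul_eq_one.1 hi).symm)
    rw [map_zero, map_sum] at h2
    rw [← h2]
    refine Finset.sum_congr rfl fun a _ => ?_
    rw [map_mul, AlgEquiv.commutes, map_prod]
    congr 1
    refine Finset.prod_congr rfl fun i _ => ?_
    simp [Q0]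
  have hu := (Matrix.isUnit_iff_isUnit_det _).1 (Q0_unit (k := k) (K := K))
  have h3 := inv_sum (Matrix.mul_nonsing_inv _ hu) (fun a => algebraMap k K (r a)) a
  simp only [h1, zero_mul, Finset.sum_const_zero] at h3
  exact (_root_.map_eq_zero _).1 h3.symm

/-- the same matrix over the power series ring. -/
noncomputable def Q1 (k K : Type) [Field k] [Field K] [Algebra k K] [FiniteDimensional k K]
    [IsGalois k K] : Matrix (K ≃ₐ[k] K) (K ≃ₐ[k] K) K⟦X⟧ :=
  (Q0 k K).map C

lemma key_PS {ι : Type} [Fintype ι] [DecidableEq ι] (hι : Fintype.card ι < Module.finrank k K)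
    (r : (ι → (K ≃ₐ[k] K)) → RR k K)
    (h : ∀ b : ι → (K ≃ₐ[k] K), (∀ i, b i ≠ 1) →
      ∑ a, algebraMap (RR k K) K⟦X⟧ (r a) * ∏ i, Q1 k K (a i) (b i) = 0) (a : ι → (K ≃ₐ[k] K)) :
    X ∣ algebraMap (RR k K) K⟦X⟧ (r a) := by
  have : ∀ a, ∃ c : k, algebraMap k K c = constantCoeff (r a).1 := fun a => (r a).2
  choose c hc using this
  have h1 := gal_key hι c (fun b hb => by
    have := congrArg (constantCoeff (R := K)) (h b hb)
    rw [map_zero, map_sum] at this
    rw [← this]
    refine Finset.sum_congr rfl fun a _ => ?_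
    rw [map_mul, map_prod, hc]
    simp [Q1]) a
  rw [X_dvd_iff]
  change constantCoeff (r a).1 = 0
  rw [← hc, h1, map_zero]

theorem example_main (e : ℕ) (he : e < Module.finrank k K) (h1 : 1 < Module.finrank k K) :
    Submodule.torsion (RR k K) (MM (RR k K) (Q1 k K) 1) = ⊥ ∧
    ¬ Module.Free (RR k K) (MM (RR k K) (Q1 k K) 1) ∧
    Submodule.torsion (RR k K) (TensorPower (RR k K) e (MM (RR k K) (Q1 k K) 1)) = ⊥ := by
  have hu := (Matrix.isUnit_iff_isUnit_det _).1 (Q0_unit (k := k) (K := K))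
  have hQP : Q1 k K * ((Q0 k K)⁻¹).map C = 1 := by
    rw [Q1, ← Matrix.map_mul, Matrix.mul_nonsing_inv _ hu, Matrix.map_one _ (map_zero _) (map_one _)]
  have hPQ : ((Q0 k K)⁻¹).map C * Q1 k K = 1 := by
    rw [Q1, ← Matrix.map_mul, Matrix.nonsing_inv_mul _ hu, Matrix.map_one _ (map_zero _) (map_one _)]
  have hinj : Function.Injective (algebraMap (RR k K) K⟦X⟧) := Subtype.val_injective
  refine ⟨torsion_MM hinj 1, not_free X_ne_zero (lfX k) (fun _ => rfl) hPQ 1 ?_ ?_,
    torsion_free hinj X_ne_zero (lfX k) (fun _ => rfl) hQP hPQ 1 e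
      (key_PS (by simpa using he))⟩
  · rw [isUnit_iff_constantCoeff]
    simp
  · intro r hr a
    refine key_PS (ι := Unit) (by simpa using h1) (fun a => r (a ())) (fun b hb => ?_) (fun _ => a)
    rw [← hr (b ()) (hb ())]
    exact Fintype.sum_equiv (Equiv.funUnique Unit _) _ _ fun a => by simp

end Gal

end Pool.Agent.H535Z.Tor
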